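import Pool.Agent.Y148.BS.Lang

/-!
# Sliced systems of motives: definitions
-/

open CategoryTheory AlgebraicGeometry

universe u v w

namespace Pool.Agent.Y148.SS

open Pool.Agent.H914 Pool.Agent.H914.VarClass Pool.Agent.H914.VarClass.Obj Pool.Agent.W492.BB
  Pool.Agent.Y148.BS

variable {k : Type u} [Field k] {𝒱 : VarClass k}

/-- A family of Chow motives with weights: `Q m T r` means that the motive `(T, r)`, with `T` a
variety and `r` a self-correspondence of `T`, belongs to the family and has the weight `m`. -/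
abbrev Family (C : TheoryData.{u, v, 0} 𝒱 ℚ) := ℕ → ∀ T : 𝒱.Obj, C.A (T.prod T) → Prop

section chow

variable {C : TheoryData.{u, v, 0} 𝒱 ℚ} (Q : Family C)

/-- `IsTensor Q n P p`: the motive `(P, p)` is a tensor product of motives `(T_i, r_i)` in `Q`, that
is `P = T_1 × ⋯ × T_s` and `p = r_1 ⊗ ⋯ ⊗ r_s`, and `n` is the sum of their weights. -/
inductive IsTensor : ℕ → (P : 𝒱.Obj) → C.A (P.prod P) → Prop
  | factor (m : ℕ) (T : 𝒱.Obj) (r : C.A (T.prod T)) (hr : Q m T r) : IsTensor m T r
  | prod (n m : ℕ) (P T : 𝒱.Obj) (p : C.A (P.prod P)) (r : C.A (T.prod T)) (hp : IsTensor n P p)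
      (hr : Q m T r) : IsTensor (n + m) (P.prod T) (box C p r)

/-- The products of varieties `T` which carry a motive `(T, r)` in `Q`. -/
inductive IsProductOf : 𝒱.Obj → Prop
  | factor (m : ℕ) (T : 𝒱.Obj) (r : C.A (T.prod T)) (hr : Q m T r) : IsProductOf T
  | prod (X Y : 𝒱.Obj) (hX : IsProductOf X) (hY : IsProductOf Y) : IsProductOf (X.prod Y)

/-- `Through Q w b X Z γ`: the correspondence `γ` of degree `b` from `X` to `Z` factors through the
twist `M(-c)` of a tensor product `M = (P, p)` of motives in `Q` of weight `n` such that `w n c`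
holds, or of the unit motive, `n = 0`; the twist has the weight `n + 2c`. In the second case `γ` is
the external product of a cycle of dimension `c` on `X` and a cycle of codimension `c + b` on
`Z`. -/
inductive Through (w : ℕ → ℕ → Prop) (b : ℕ) (X Z : 𝒱.Obj) : C.A (X.prod Z) → Prop
  | unit (c : ℕ) (hw : w 0 c) (v : C.A X) (u : C.A Z) (hv : C.Deg (X.dim - c) v)
      (hu : C.Deg (c + b) u) : Through w b X Z (cross C v u)
  | tensor (n c : ℕ) (hw : w n c) (P : 𝒱.Obj) (p : C.A (P.prod P)) (hp : IsTensor Q n P p)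
      (f : C.A (X.prod P)) (g : C.A (P.prod Z)) (hf : C.Deg (X.dim - c) f)
      (hg : C.Deg (P.dim + c + b) g) : Through w b X Z (circ C f (circ C p g))

/-- A slicing of the motive `(T, r)` of weight `m`: a collection `S` of correspondences `s` of
degree zero from `T` to varieties `Z` (such as the restrictions to the smooth members `Z` of a
pencil of hypersurfaces on `T`) and a collection `S'` of correspondences `s'` of degree one from
varieties `Z` to `T` (such as the push-forwards from the desingularisations `Z` of the components of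
the members of the pencil) with the following properties.
* `lower`, `lower'`: the compositions of `s` and of `s'` with `r` are sums of correspondences which
  factor through twists `M(-c)` of tensor products `M` of motives in `Q` of weight `n < m` (or
  of the unit motive, `n = 0`) where the weight `n + 2c` of the twist is at least `m - 1`.
* `spread`: for all varieties `P`, a class `z` on `P × T` such that the restrictions `s ∘ z` are
  zero for all `s` in `S` is a sum of classes of the form `s' ∘ w` with `s'` in `S'` (the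
  argument of Bloch and Srinivas). -/
structure IsSlicing (m : ℕ) (T : 𝒱.Obj) (r : C.A (T.prod T))
    (S : ∀ Z : 𝒱.Obj, C.A (T.prod Z) → Prop) (S' : ∀ Z : 𝒱.Obj, C.A (Z.prod T) → Prop) :
    Prop where
  deg : ∀ (Z : 𝒱.Obj) (s : C.A (T.prod Z)), S Z s → C.Deg T.dim s
  deg' : ∀ (Z : 𝒱.Obj) (s : C.A (Z.prod T)), S' Z s → C.Deg (Z.dim + 1) s
  lower : ∀ (Z : 𝒱.Obj) (s : C.A (T.prod Z)), S Z s →
    IsSum C (Through Q (fun n c => n < m ∧ m ≤ n + 2 * c + 1) 0 T Z) (circ C r s)
  lower' : ∀ (Z : 𝒱.Obj) (s : C.A (Z.prod T)), S' Z s →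
    IsSum C (Through Q (fun n c => n < m ∧ m ≤ n + 2 * c + 1) 1 Z T) (circ C s r)
  spread : ∀ (P : 𝒱.Obj) (j : ℤ) (z : C.A (P.prod T)), C.Deg j z →
    (∀ (Z : 𝒱.Obj) (s : C.A (T.prod Z)), S Z s → circ C z s = 0) →
    IsSum C (fun y => ∃ (Z : 𝒱.Obj) (s : C.A (Z.prod T)) (w : C.A (P.prod Z)),
      S' Z s ∧ C.Deg (j - 1) w ∧ y = circ C w s) z

/-- The class `z` lies in the step `F^ν CH^j(X) = (π_(2j-ν) + ⋯ + π_0)_* CH^j(X)` of the filtration
attached to the decomposition `π`. -/
def InStep {X : 𝒱.Obj} (π : ℕ → C.A (X.prod X)) (j ν : ℕ) (z : C.A X) : Prop :=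
  ∃ y : C.A X, C.Deg j y ∧ z = C.act (∑ i ∈ Finset.range (2 * j + 1 - ν), π i) y

end chow

section weil

variable {C : TheoryData.{u, v, 0} 𝒱 ℚ} {K : Type w} [Field K] (H : WeilTheoryData.{u, v, w} C K)

/-- A Chow-Kunneth decomposition of `X`: self-correspondences `π 0, …, π (2 dim X)` of degree
zero which are mutually orthogonal idempotents with sum the diagonal, and such that `π i` acts as
the identity on `H^i(X)` and as zero on `H^m(X)` for `m ≠ i`. -/
structure IsChowKunneth {X : 𝒱.Obj} (π : ℕ → C.A (X.prod X)) : Prop where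
  deg : ∀ i, C.Deg X.dim (π i)
  out : ∀ i, 2 * X.dim < i → π i = 0
  idem : ∀ i, circ C (π i) (π i) = π i
  orth : ∀ i j, i ≠ j → circ C (π i) (π j) = 0
  sum : ∑ i ∈ Finset.range (2 * X.dim + 1), π i = diag C X
  act_self : ∀ (i : ℕ) (a : H.A X), H.Deg i a → actH H (π i) a = a
  act_ne : ∀ (i : ℕ) (m : ℤ) (a : H.A X), m ≠ i → H.Deg m a → actH H (π i) a = 0

/-- A sliced system of motives: for every motive `(T, r)` of weight `m` in `Q`
* `m = dim T ≥ 1`, and `r` is a self-dual idempotent;
* the variety `T` has a Chow-Kunneth decomposition `π` such that `(T, r)` is a direct summand of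
  `(T, π m)`, and such that every `π i` is a sum of correspondences which factor through twists
  `M(-c)` of weight `n + 2c = i` of tensor products `M` of weight `n` of motives in `Q` (or of the
  unit motive, `n = 0`);
* there is a slicing of `(T, r)`. -/
structure IsSlicedSystem (Q : Family C) : Prop where
  pos : ∀ (m : ℕ) (T : 𝒱.Obj) (r : C.A (T.prod T)), Q m T r → 1 ≤ m
  dim_eq : ∀ (m : ℕ) (T : 𝒱.Obj) (r : C.A (T.prod T)), Q m T r → T.dim = m
  deg : ∀ (m : ℕ) (T : 𝒱.Obj) (r : C.A (T.prod T)), Q m T r → C.Deg T.dim r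
  idem : ∀ (m : ℕ) (T : 𝒱.Obj) (r : C.A (T.prod T)), Q m T r → circ C r r = r
  self_dual : ∀ (m : ℕ) (T : 𝒱.Obj) (r : C.A (T.prod T)), Q m T r → transpose C r = r
  decomposition : ∀ (m : ℕ) (T : 𝒱.Obj) (r : C.A (T.prod T)), Q m T r →
    ∃ π : ℕ → C.A (T.prod T), IsChowKunneth H π ∧ circ C (π m) r = r ∧
      ∀ i, IsSum C (Through Q (fun n c => n + 2 * c = i) 0 T T) (π i)
  slicing : ∀ (m : ℕ) (T : 𝒱.Obj) (r : C.A (T.prod T)), Q m T r →
    ∃ S S', IsSlicing Q m T r S S'

/-- Murre's conjecture (D) for the variety `X`: for all its Chow-Kunneth decompositions,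
`F^1 CH^j(X)` is the group of homologically trivial cycles. -/
def MurreConjectureD (X : 𝒱.Obj) : Prop :=
  ∀ π : ℕ → C.A (X.prod X), IsChowKunneth H π → ∀ (j : ℕ) (z : C.A X),
    InStep π j 1 z ↔ C.Deg j z ∧ IsHomTrivial H z

/-- Murre's conjectures (A), (B), (C), (D) for the variety `X` (and all its Chow-Kunneth
decompositions in the case of (B) and (D)). -/
structure MurreConjectures (X : 𝒱.Obj) : Prop where
  a : ∃ π : ℕ → C.A (X.prod X), IsChowKunneth H π
  b : ∀ π : ℕ → C.A (X.prod X), IsChowKunneth H π → ∀ (j : ℕ) (z : C.A X),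
    (C.Deg j z → InStep π j 0 z) ∧ (InStep π j (j + 1) z → z = 0)
  c : ∀ π π' : ℕ → C.A (X.prod X), IsChowKunneth H π → IsChowKunneth H π' →
    ∀ (j ν : ℕ) (z : C.A X), InStep π j ν z ↔ InStep π' j ν z
  d : MurreConjectureD H X

/-- `F X j ν` is the step `F^ν CH^j(X)` of a Bloch-Beilinson filtration on the Chow groups of the
varieties `X` in the class `S`: the properties 1 (`zero`, `one`), 2 (`top`), 3 (`mul`),
4 (`pull`, `push`) and 5 (`motivic`: a self-correspondence of degree zero which acts as zero on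
`H^(2j-ν)(X)` acts as zero on `Gr^ν CH^j(X)`) of the problem. -/
structure IsBlochBeilinsonFiltration (S : 𝒱.Obj → Prop) (F : Filtrations C) : Prop where
  anti : ∀ X, S X → ∀ (j ν : ℕ) (z : C.A X), F.Has j (ν + 1) z → F.Has j ν z
  zero : ∀ X, S X → ∀ (j : ℕ) (z : C.A X), F.Has j 0 z ↔ C.Deg j z
  one : ∀ X, S X → ∀ (j : ℕ) (z : C.A X), F.Has j 1 z ↔ C.Deg j z ∧ IsHomTrivial H z
  top : ∀ X, S X → ∀ (j : ℕ) (z : C.A X), F.Has j (j + 1) z → z = 0
  mul : ∀ X, S X → ∀ (j i ν μ : ℕ) (z y : C.A X), F.Has j ν z → F.Has i μ y →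
    F.Has (j + i) (ν + μ) (C.mul z y)
  pull : ∀ X Y, S X → S Y → ∀ (f : X ⟶ Y) (j ν : ℕ) (z : C.A Y), F.Has j ν z →
    F.Has j ν (C.up f z)
  push : ∀ X Y, S X → S Y → ∀ (f : X ⟶ Y) (j i ν : ℕ), j + Y.dim = i + X.dim →
    ∀ z : C.A X, F.Has j ν z → F.Has i ν (C.down f z)
  motivic : ∀ X, S X → ∀ (j ν : ℕ) (Γ : C.A (X.prod X)), C.Deg X.dim Γ →
    Kills H Γ (2 * j - ν) → ∀ z : C.A X, F.Has j ν z → F.Has j (ν + 1) (C.act Γ z)

/-- Murre's conjecture (D) in the middle: the homologically trivial cycles of codimension `j` of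
the tensor products `(P, p)` of weight `2j` of motives in `Q` are zero. -/
def MiddleD (Q : Family C) (j : ℕ) : Prop :=
  ∀ (P : 𝒱.Obj) (p : C.A (P.prod P)), IsTensor Q (2 * j) P p →
    ∀ z : C.A P, C.Deg j z → IsHomTrivial H z → C.act p z = z → z = 0

end weil

end Pool.Agent.Y148.SS
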